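import Mathlib
import Pool.Agent.Helper71.TF.Tor
import Pool.Agent.Helper71.QR.Fin

/-!
# Logarithms over arbitrary constants: almost all tuples
-/

set_option autoImplicit false

namespace Pool.Agent.Helper71.TG

open Finset Module MvPolynomial
open Pool.Agent.Helper71.ET
open Pool.Agent.Helper71.TF

section empty

variable {k E : Type} [Field k] [Field E] [Algebra k E]

theorem not_rel_zero (W : Submodule k E) (D : ℕ) (z : Fin 0 → E) :
    ¬ Pool.Agent.Helper71.FC.Rel W D z := by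
  rintro ⟨P, hP0, -, hP⟩
  apply hP0
  rw [MvPolynomial.eq_C_of_isEmpty P] at hP ⊢
  rw [eval_C] at hP
  rw [hP, C_0]

omit [Field E] in
theorem append_elim {m : ℕ} (z : Fin 0 → E) (u : Fin m → E) (i : Fin m) :
    (Fin.append z u : Fin (0 + m) → E) (finCongr (Nat.zero_add m).symm i) = u i := by
  have h : finCongr (Nat.zero_add m).symm i = Fin.natAdd 0 i := by
    ext
    simp
  rw [h, Fin.append_right]

theorem rel_append {W : Submodule k E} {D m : ℕ}
    (z : Fin 0 → E) {u : Fin m → E} {P : MvPolynomial (Fin m) E} (hP0 : P ≠ 0)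
    (hP : ∀ s, P.coeff s ∈ W) (hPD : P.totalDegree ≤ D) (hPu : eval u P = 0) :
    Pool.Agent.Helper71.FC.Rel W D (Fin.append z u : Fin (0 + m) → E) := by
  have hinj : Function.Injective (finCongr (Nat.zero_add m).symm) := Equiv.injective _
  refine ⟨rename (finCongr (Nat.zero_add m).symm) P, ?_, ⟨fun s => ?_, ?_⟩, ?_⟩
  · intro h
    exact hP0 (rename_injective _ hinj (by rw [h, map_zero]))
  · have h1 : s = Finsupp.mapDomain (finCongr (Nat.zero_add m).symm)
        (Finsupp.mapDomain (finCongr (Nat.zero_add m)) s) := by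
      rw [← Finsupp.mapDomain_comp]
      have h2 : ((finCongr (Nat.zero_add m).symm : Fin m → Fin (0 + m)) ∘
          (finCongr (Nat.zero_add m) : Fin (0 + m) → Fin m)) = id := by
        funext i
        simp
      rw [h2, Finsupp.mapDomain_id]
    rw [h1, coeff_rename_mapDomain _ hinj]
    exact hP _
  · exact (totalDegree_rename_le _ _).trans hPD
  · rw [eval_rename]
    have h1 : (Fin.append z u : Fin (0 + m) → E) ∘ (finCongr (Nat.zero_add m).symm) = u := by
      funext i
      exact append_elim z u i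
    rw [h1, hPu]

theorem li_empty {m : ℕ} (z : Fin 0 → E) {u : Fin m → E}
    (hli : LinearIndependent k (Fin.cons 1 u : Fin (m + 1) → E)) :
    LinearIndependent k (Fin.cons 1 (Fin.append z u) : Fin (0 + m + 1) → E) := by
  rw [Pool.Agent.Helper71.QR.li_append]
  intro t c g hg
  rw [Fintype.linearIndependent_iff] at hli
  have h1 := hli (Fin.cons t g) (by
    rw [Fin.sum_univ_succ]
    simp only [Fin.cons_zero, Fin.cons_succ, Algebra.smul_def, mul_one]
    rw [← hg]
    simp)
  refine ⟨h1 0, ?_, ?_⟩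
  · funext a
    exact a.elim0
  · funext i
    have := h1 i.succ
    rwa [Fin.cons_succ] at this

end empty

/-- the numbers `∑ j, X l j * b j` -/
noncomputable def comb {s R : ℕ} (b : Fin R → ℂ) (X : Fin s → Fin R → ℚ) : Fin s → ℂ :=
  fun l => ∑ j, (X l j : ℂ) * b j

/-- almost all rational matrices -/
def AR (e : ℕ) {s R : ℕ} (Q : (Fin s → Fin R → ℚ) → Prop) : Prop :=
  (∃ Ψ : MvPolynomial (Fin s × Fin R) Qa, Ψ ≠ 0 ∧ ∀ X : Fin s → Fin R → ℚ,
    eval (fun p => (X p.1 p.2 : Qa)) Ψ ≠ 0 → Q X) ∧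
  ∃ κ : ℕ, ∀ H : ℕ, 1 ≤ H →
    Set.ncard {X : Fin s → Fin R → ℤ | (∀ i j, |X i j| ≤ H) ∧ ¬ Q (fun i j => (X i j : ℚ))} ≤
      κ * H ^ (s * R - e)

theorem box_finite (n R H : ℕ) : {X : Fin n → Fin R → ℤ | ∀ i j, |X i j| ≤ H}.Finite := by
  refine Set.Finite.subset (Set.Finite.pi' (fun _ : Fin n => Set.Finite.pi'
    (fun _ : Fin R => (Set.finite_Icc (-(H : ℤ)) H)))) ?_
  rintro X hX i j
  exact abs_le.1 (hX i j)

theorem ar_of {e s R : ℕ} {Q : (Fin s → Fin R → ℚ) → Prop} {Q' : (Fin s → Fin R → Qa) → Prop}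
    (h : Pool.Agent.Helper71.QR.AA e Q')
    (hQ : ∀ X : Fin s → Fin R → ℚ, Q' (fun i j => (X i j : Qa)) → Q X) : AR e Q := by
  obtain ⟨⟨Ψ, hΨ, h1⟩, κ, h2⟩ := h
  refine ⟨⟨Ψ, hΨ, fun X hX => hQ X (h1 _ hX)⟩, κ, fun H hH => le_trans ?_ (h2 H hH)⟩
  refine Set.ncard_le_ncard ?_ ((box_finite s R H).subset fun X hX => hX.1)
  rintro X ⟨h3, h4⟩
  refine ⟨h3, fun h5 => h4 (hQ _ ?_)⟩
  simpa using h5

/-- **Almost all tuples of logarithms over arbitrary constants.** -/
theorem tor_fin_aa (N s R D e : ℕ) (hsR : s ≤ R) (he1 : 1 ≤ e) (he : e ≤ s * R)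
    (hnum : ∀ m, 1 ≤ m → m ≤ s →
      (D + N).choose N * (m + D).choose D + e ≤ m * (R - s + 2) + 1)
    (Θ : Fin N → ℂ) (hπ : (2 * Real.pi * Complex.I : ℂ) ∈ Aff Qa Θ)
    (b : Fin R → ℂ) (hb : ∀ j, IsAlgebraic ℚ (Complex.exp (b j))) (hli : LinearIndependent ℚ b) :
    AR e (fun X : Fin s → Fin R → ℚ => ∀ (r : ℕ) (t : Fin r → ℂ),
      (∀ l, t l ∈ Submodule.span ℚ (Set.range (comb b X)) ⊔
        Submodule.span ℚ {(2 * Real.pi * Complex.I : ℂ)}) →
      (∀ c : Fin r → ℚ, ∑ l, (c l : ℂ) * t l ∈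
        Submodule.span ℚ {(2 * Real.pi * Complex.I : ℂ)} → c = 0) →
      OTR Qa D Θ t) := by
  classical
  have := Pool.Agent.Y787.uncountable_complex
  have hL := Pool.Agent.Y787.hypC_complex.hyp
  have hw : Pool.Agent.Y787.AS.Wts' Qa ℂ := Pool.Agent.Y787.AS.wts_pt
  set W := monW (k := Qa) Θ D with hWdef
  have hWf : Module.Finite Qa W := monW_finite Θ D
  have hWr : finrank Qa W ≤ (D + N).choose N := finrank_monW Θ D
  have hbL : ∀ i, (Fin.append (Fin.cons 1 (![] : Fin 0 → ℂ) : Fin (0 + 1) → ℂ) b) i ∈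
      Pool.Agent.H301R2.SSE.Lt := by
    intro i
    refine Fin.addCases (fun a => ?_) (fun i => ?_) i
    · rw [Fin.append_left]
      refine Fin.cases ?_ (fun a => a.elim0) a
      exact Pool.Agent.Y787.hypC_complex.one
    · rw [Fin.append_right]
      exact Pool.Agent.H301R2.SSE.Lt_log (hb i)
  have hb' := Pool.Agent.Helper71.QR.li_shift (li_empty ![] (Pool.Agent.Y787.li_consC b hb hli))
  have hnum' : Pool.Agent.Helper71.QR.NumZ (finrank Qa W) D s s R 0 (s * R + 1 - e) := by
    refine Pool.Agent.Helper71.QR.num_gen hsR he fun m hm0 hm1 _ => ?_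
    have h1 := hnum m hm0 hm1
    have h2 : (D + (0 + m)).choose (0 + m) = (m + D).choose D := by
      rw [Nat.zero_add, add_comm D m, Nat.choose_symm_add]
    rw [h2, Nat.add_zero]
    refine le_trans ?_ h1
    exact Nat.add_le_add_right (Nat.mul_le_mul_right _ hWr) _
  refine ar_of (Pool.Agent.Helper71.QR.aa_of hL hw he hnum' he1 ![] b hbL hb'
    (not_rel_zero W D ![])) fun X hX => ?_
  have hX' : Pool.Agent.Helper71.QR.NoRelZ W D s (![] : Fin 0 → ℂ) (comb b X) := by
    have h1 : (fun i : Fin s => ∑ j, algebraMap Qa ℂ (X i j : Qa) * b j) = comb b X := by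
      funext i
      simp [comb]
    rw [← h1]
    exact hX
  intro r t ht hti
  have hlog : ∀ x ∈ Submodule.span ℚ (Set.range (comb b X)), IsAlgebraic ℚ (Complex.exp x) := by
    intro x hx
    rw [← Pool.Agent.Helper71.MLog.mem_span_logs x]
    refine (Submodule.span_le.2 ?_) hx
    rintro _ ⟨l, rfl⟩
    refine Submodule.sum_mem _ fun j _ => ?_
    rw [← Rat.smul_def]
    exact Submodule.smul_mem _ _ (Submodule.subset_span (hb j))
  have h1 : ∀ l, ∃ (x : ℂ) (c : ℚ), x ∈ Submodule.span ℚ (Set.range (comb b X)) ∧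
      t l = x + (c : ℂ) * (2 * Real.pi * Complex.I) := by
    intro l
    obtain ⟨x, hx, z, hz, hxz⟩ := Submodule.mem_sup.1 (ht l)
    obtain ⟨c, rfl⟩ := Submodule.mem_span_singleton.1 hz
    exact ⟨x, c, hx, by rw [← hxz, Rat.smul_def]⟩
  choose x c hx htx using h1
  have hxi : LinearIndependent ℚ x := by
    rw [Fintype.linearIndependent_iff]
    intro a ha l
    refine congrFun (hti a ?_) l
    refine Submodule.mem_span_singleton.2 ⟨∑ l, a l * c l, ?_⟩
    have h2 : ∑ l, (a l : ℂ) * x l = 0 := by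
      rw [← ha]
      exact Finset.sum_congr rfl fun l _ => (Rat.smul_def _ _).symm
    simp only [htx, mul_add, Finset.sum_add_distrib, h2, zero_add]
    rw [Rat.smul_def]
    push_cast
    rw [Finset.sum_mul]
    exact Finset.sum_congr rfl fun l _ => by ring
  have hcons : LinearIndependent Qa (Fin.cons 1 x : Fin (r + 1) → ℂ) :=
    Pool.Agent.Y787.li_consC x (fun j => hlog _ (hx j)) hxi
  have hrs : r ≤ s := by
    have hfin : Module.Finite ℚ (Submodule.span ℚ (Set.range (comb b X))) :=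
      FiniteDimensional.span_of_finite ℚ (Set.finite_range _)
    have h2 := finrank_span_eq_card hxi
    have h3 : finrank ℚ (Submodule.span ℚ (Set.range x)) ≤
        finrank ℚ (Submodule.span ℚ (Set.range (comb b X))) := by
      refine Submodule.finrank_mono (Submodule.span_le.2 ?_)
      rintro _ ⟨j, rfl⟩
      exact hx j
    have h4 : finrank ℚ (Submodule.span ℚ (Set.range (comb b X))) ≤ Fintype.card (Fin s) :=
      finrank_range_le_card (R := ℚ) (comb b X)
    rw [Fintype.card_fin] at h2 h4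
    omega
  have h3 : OTR Qa D Θ x := otr_of fun P hP hPD hPx => by
    by_contra hP0
    refine hX' r hrs x (fun i => ?_) (li_empty ![] hcons) (rel_append _ hP0 hP hPD hPx)
    have h5 : Submodule.span ℚ (Set.range (comb b X)) ≤
        (Submodule.span Qa (insert 1 (Set.range (![] : Fin 0 → ℂ) ∪ Set.range (comb b X)))).restrictScalars
          ℚ := by
      refine Submodule.span_le.2 ?_
      rintro _ ⟨l, rfl⟩
      exact Submodule.subset_span (Or.inr (Or.inr ⟨l, rfl⟩))
    exact h5 (hx i)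
  refine h3.affine (fun i s => if i = s then 1 else 0)
    (fun l => (c l : ℂ) * (2 * Real.pi * Complex.I)) ?_ ?_ ?_
  · intro l
    have h4 := (Aff Qa Θ).smul_mem ((c l : ℚ) : Qa) hπ
    rw [Algebra.smul_def, map_ratCast] at h4
    exact h4
  · intro l
    rw [htx l]
    congr 1
    rw [Finset.sum_eq_single l]
    · rw [if_pos rfl, map_one, one_mul]
    · intro b _ hb
      rw [if_neg (Ne.symm hb), map_zero, zero_mul]
    · intro h; exact absurd (Finset.mem_univ _) h
  · intro y
    refine ⟨y, fun l => ?_⟩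
    rw [Finset.sum_eq_single l]
    · rw [if_pos rfl, map_one, one_mul]
    · intro b _ hb
      rw [if_neg (Ne.symm hb), map_zero, zero_mul]
    · intro h; exact absurd (Finset.mem_univ _) h

/-- **Almost all tuples of logarithms over arbitrary constants.** -/
theorem tor_aa (P : Type) [Fintype P] (s R D e : ℕ) (hsR : s ≤ R) (he1 : 1 ≤ e) (he : e ≤ s * R)
    (hnum : ∀ m, 1 ≤ m → m ≤ s →
      (D + Fintype.card P).choose D * (m + D).choose D + e ≤ m * (R - s + 2) + 1)
    (Θ : P → ℂ) (hπ : (2 * Real.pi * Complex.I : ℂ) ∈ Aff Qa Θ)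
    (b : Fin R → ℂ) (hb : ∀ j, IsAlgebraic ℚ (Complex.exp (b j))) (hli : LinearIndependent ℚ b) :
    AR e (fun X : Fin s → Fin R → ℚ => ∀ (r : ℕ) (t : Fin r → ℂ),
      (∀ l, t l ∈ Submodule.span ℚ (Set.range (comb b X)) ⊔
        Submodule.span ℚ {(2 * Real.pi * Complex.I : ℂ)}) →
      (∀ c : Fin r → ℚ, ∑ l, (c l : ℂ) * t l ∈
        Submodule.span ℚ {(2 * Real.pi * Complex.I : ℂ)} → c = 0) →
      OTR Qa D Θ t) := by
  classical
  set e' : Fin (Fintype.card P) ≃ P := (Fintype.equivFin P).symm with he'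
  have hch : (D + Fintype.card P).choose (Fintype.card P) = (D + Fintype.card P).choose D := by
    have := Nat.choose_symm_add (a := D) (b := Fintype.card P)
    exact this.symm
  have h1 : Set.range (Θ ∘ e') = Set.range Θ := e'.surjective.range_comp Θ
  obtain ⟨⟨Ψ, hΨ, h3⟩, κ, h4⟩ := tor_fin_aa (Fintype.card P) s R D e hsR he1 he
    (by rw [hch]; exact hnum) (Θ ∘ e') (by
      unfold Aff
      rw [h1]
      exact hπ) b hb hli
  have hmono : ∀ (r : ℕ) (t : Fin r → ℂ), OTR Qa D (Θ ∘ e') t → OTR Qa D Θ t := by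
    intro r t h
    have h7 := OTR.reindex e'.symm h
    have h8 : (Θ ∘ e') ∘ e'.symm = Θ := by
      funext p
      simp
    rwa [h8] at h7
  refine ⟨⟨Ψ, hΨ, fun X hX r t ht hti => hmono r t (h3 X hX r t ht hti)⟩, κ, fun H hH =>
    le_trans ?_ (h4 H hH)⟩
  refine Set.ncard_le_ncard ?_ ((box_finite s R H).subset fun X hX => hX.1)
  rintro X ⟨h5, h6⟩
  exact ⟨h5, fun h9 => h6 fun r t ht hti => hmono r t (h9 r t ht hti)⟩

end Pool.Agent.Helper71.TG
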