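import Mathlib
import Pool.Agent.Helper71.QC.GenC
import Pool.Agent.Helper71.TG.Aa

/-!
# Almost all tuples: relations over arbitrary constants, counted in all variables
-/

set_option autoImplicit false

namespace Pool.Agent.Helper71.TG

open Finset Module MvPolynomial
open Pool.Agent.Helper71.ET
open Pool.Agent.Helper71.TF
open Pool.Agent.Helper71.QC

/-- relations over constants -/
theorem otr_of_relC {k E : Type} [Field k] [Field E] [Algebra k E] {N r D : ℕ} {Θ : Fin N → E}
    {x : Fin r → E} (h : ¬ RelC (Submodule.span k {(1 : E)}) D Θ x) : OTR k D Θ x := by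
  classical
  intro Q hQ h0 y
  by_contra hy
  apply h
  have key : ∀ w : Fin r → E, eval (Fin.append Θ w)
      (map (algebraMap k E) (rename finSumFinEquiv Q)) = aeval (Sum.elim Θ w) Q := by
    intro w
    rw [eval_map, ← aeval_def, aeval_rename]
    congr 2
    funext p
    rcases p with p | p
    · simp
    · simp
  refine ⟨map (algebraMap k E) (rename finSumFinEquiv Q), ⟨y, ?_⟩, ⟨fun s => ?_, ?_⟩, ?_⟩
  · rw [key]
    exact hy
  · rw [coeff_map, Submodule.mem_span_singleton]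
    exact ⟨_, by rw [Algebra.smul_def, mul_one]⟩
  · have h1 : (rename finSumFinEquiv Q).totalDegree ≤ D := (totalDegree_rename_le _ _).trans hQ
    refine (Finset.sup_le fun s hs => ?_ : (map (algebraMap k E)
      (rename finSumFinEquiv Q)).totalDegree ≤ D)
    exact (le_totalDegree (support_map_subset _ _ hs)).trans h1
  · rw [key]
    exact h0

/-- the numerical condition -/
def Cond (D s R v e : ℕ) : Prop :=
  ∀ m, 1 ≤ m → m ≤ s → ∃ d ≤ m, (v + m + D).choose D + m * (s - m) + e ≤ d * (R + 2 - d) + 1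

/-- **Almost all spaces of linear forms in logarithms, arbitrary constants.** -/
theorem otr_aa (N n R D e : ℕ) (hnR : n ≤ R) (he1 : 1 ≤ e) (he : e ≤ n * R)
    (hnum : Cond D n R N e) (Θ : Fin N → ℂ) (b : Fin R → ℂ)
    (hbL : ∀ i, b i ∈ Pool.Agent.H301R2.SSE.Lt)
    (hli : LinearIndependent Qa (Fin.cons 1 b : Fin (R + 1) → ℂ)) :
    Pool.Agent.Helper71.QR.AA e (fun x : Fin n → Fin R → Qa => ∀ (r : ℕ) (y' : Fin r → ℂ),
      (∀ i, y' i ∈ Submodule.span Qa
        (insert 1 (Set.range fun i : Fin n => ∑ j, algebraMap Qa ℂ (x i j) * b j))) →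
      LinearIndependent Qa (Fin.cons 1 y' : Fin (r + 1) → ℂ) → OTR Qa D Θ y') := by
  classical
  have := Pool.Agent.Y787.uncountable_complex
  have hL := Pool.Agent.Y787.hypC_complex.hyp
  have hw : Pool.Agent.Y787.AS.Wts' Qa ℂ := Pool.Agent.Y787.AS.wts_pt
  have hW1 : finrank Qa (Submodule.span Qa ({1} : Set ℂ)) = 1 := Pool.Agent.Helper71.QR.finrank_one
  have hWf : Module.Finite Qa (Submodule.span Qa ({1} : Set ℂ)) :=
    FiniteDimensional.span_of_finite Qa (Set.finite_singleton _)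
  have hbL' : ∀ i, (Fin.append (Fin.cons 1 (![] : Fin 0 → ℂ) : Fin (0 + 1) → ℂ) b) i ∈
      Pool.Agent.H301R2.SSE.Lt := by
    intro i
    refine Fin.addCases (fun a => ?_) (fun i => ?_) i
    · rw [Fin.append_left]
      refine Fin.cases ?_ (fun a => a.elim0) a
      exact Pool.Agent.Y787.hypC_complex.one
    · rw [Fin.append_right]
      exact hbL i
  have hb' := Pool.Agent.Helper71.QR.li_shift (li_empty ![] hli)
  have hnum' : NumC (finrank Qa (Submodule.span Qa ({1} : Set ℂ))) D n n R N (n * R + 1 - e) := by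
    refine num_C hnR he fun m hm0 hm1 _ => ?_
    rw [hW1]
    simpa using hnum m hm0 hm1
  have hAA := aa_ofC hL hw he hnum' he1 Θ b hbL' hb'
  obtain ⟨⟨Ψ, hΨ, h1⟩, κ, h2⟩ := hAA
  have key : ∀ x : Fin n → Fin R → Qa,
      NoRelC (Submodule.span Qa ({1} : Set ℂ)) D n Θ
        (fun i => ∑ j, algebraMap Qa ℂ (x i j) * b j) →
      ∀ (r : ℕ) (y' : Fin r → ℂ),
      (∀ i, y' i ∈ Submodule.span Qa
        (insert 1 (Set.range fun i : Fin n => ∑ j, algebraMap Qa ℂ (x i j) * b j))) →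
      LinearIndependent Qa (Fin.cons 1 y' : Fin (r + 1) → ℂ) → OTR Qa D Θ y' := by
    intro x hx r y' hy' hli'
    have hrn : r ≤ n := by
      set y : Fin n → ℂ := fun i => ∑ j, algebraMap Qa ℂ (x i j) * b j with hy
      have h1 : Set.range (Fin.cons 1 y' : Fin (r + 1) → ℂ) ⊆
          Submodule.span Qa (Set.range (Fin.cons 1 y : Fin (n + 1) → ℂ)) := by
        rintro _ ⟨j, rfl⟩
        rw [Fin.range_cons]
        refine Fin.cases ?_ (fun j => ?_) j
        · exact Submodule.subset_span (Or.inl rfl)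
        · exact hy' j
      have hfin : Module.Finite Qa (Submodule.span Qa
          (Set.range (Fin.cons 1 y : Fin (n + 1) → ℂ))) :=
        FiniteDimensional.span_of_finite Qa (Set.finite_range _)
      have h2 := finrank_span_eq_card hli'
      have h3 : finrank Qa (Submodule.span Qa (Set.range (Fin.cons 1 y' : Fin (r + 1) → ℂ))) ≤
          finrank Qa (Submodule.span Qa (Set.range (Fin.cons 1 y : Fin (n + 1) → ℂ))) :=
        Submodule.finrank_mono (Submodule.span_le.2 h1)
      have h4 : finrank Qa (Submodule.span Qa (Set.range (Fin.cons 1 y : Fin (n + 1) → ℂ))) ≤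
          Fintype.card (Fin (n + 1)) :=
        finrank_range_le_card (R := Qa) (Fin.cons 1 y : Fin (n + 1) → ℂ)
      rw [Fintype.card_fin] at h2 h4
      omega
    exact otr_of_relC (hx r hrn y' hy' hli')
  refine ⟨⟨Ψ, hΨ, fun x hx => key x (h1 x hx)⟩, κ, fun H hH => le_trans ?_ (h2 H hH)⟩
  refine Set.ncard_le_ncard ?_ ((box_finite n R H).subset fun X hX => hX.1)
  rintro X ⟨h3, h4⟩
  exact ⟨h3, fun h5 => h4 (key _ h5)⟩

/-- **Almost all tuples of logarithms over arbitrary constants.** -/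
theorem tor_fin_ab (N s R D e : ℕ) (hsR : s ≤ R) (he1 : 1 ≤ e) (he : e ≤ s * R)
    (hnum : Cond D s R N e)
    (Θ : Fin N → ℂ) (hπ : (2 * Real.pi * Complex.I : ℂ) ∈ Aff Qa Θ)
    (b : Fin R → ℂ) (hb : ∀ j, IsAlgebraic ℚ (Complex.exp (b j))) (hli : LinearIndependent ℚ b) :
    AR e (fun X : Fin s → Fin R → ℚ => ∀ (r : ℕ) (t : Fin r → ℂ),
      (∀ l, t l ∈ Submodule.span ℚ (Set.range (comb b X)) ⊔
        Submodule.span ℚ {(2 * Real.pi * Complex.I : ℂ)}) →
      (∀ c : Fin r → ℚ, ∑ l, (c l : ℂ) * t l ∈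
        Submodule.span ℚ {(2 * Real.pi * Complex.I : ℂ)} → c = 0) →
      OTR Qa D Θ t) := by
  classical
  refine ar_of (otr_aa N s R D e hsR he1 he hnum Θ b
    (fun i => Pool.Agent.H301R2.SSE.Lt_log (hb i)) (Pool.Agent.Y787.li_consC b hb hli))
    fun X hX => ?_
  have hXc : (fun i : Fin s => ∑ j, algebraMap Qa ℂ (X i j : Qa) * b j) = comb b X := by
    funext i
    simp [comb]
  rw [hXc] at hX
  intro r t ht hti
  have hlog : ∀ x ∈ Submodule.span ℚ (Set.range (comb b X)), IsAlgebraic ℚ (Complex.exp x) := by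
    intro x hx
    rw [← Pool.Agent.Helper71.MLog.mem_span_logs x]
    refine (Submodule.span_le.2 ?_) hx
    rintro _ ⟨l, rfl⟩
    refine Submodule.sum_mem _ fun j _ => ?_
    rw [← Rat.smul_def]
    exact Submodule.smul_mem _ _ (Submodule.subset_span (hb j))
  have h1 : ∀ l, ∃ (x : ℂ) (c : ℚ), x ∈ Submodule.span ℚ (Set.range (comb b X)) ∧
      t l = x + (c : ℂ) * (2 * Real.pi * Complex.I) := by
    intro l
    obtain ⟨x, hx, z, hz, hxz⟩ := Submodule.mem_sup.1 (ht l)
    obtain ⟨c, rfl⟩ := Submodule.mem_span_singleton.1 hz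
    exact ⟨x, c, hx, by rw [← hxz, Rat.smul_def]⟩
  choose x c hx htx using h1
  have hxi : LinearIndependent ℚ x := by
    rw [Fintype.linearIndependent_iff]
    intro a ha l
    refine congrFun (hti a ?_) l
    refine Submodule.mem_span_singleton.2 ⟨∑ l, a l * c l, ?_⟩
    have h2 : ∑ l, (a l : ℂ) * x l = 0 := by
      rw [← ha]
      exact Finset.sum_congr rfl fun l _ => (Rat.smul_def _ _).symm
    simp only [htx, mul_add, Finset.sum_add_distrib, h2, zero_add]
    rw [Rat.smul_def]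
    push_cast
    rw [Finset.sum_mul]
    exact Finset.sum_congr rfl fun l _ => by ring
  have hcons : LinearIndependent Qa (Fin.cons 1 x : Fin (r + 1) → ℂ) :=
    Pool.Agent.Y787.li_consC x (fun j => hlog _ (hx j)) hxi
  have h3 : OTR Qa D Θ x := by
    refine hX r x (fun i => ?_) hcons
    have h5 : Submodule.span ℚ (Set.range (comb b X)) ≤
        (Submodule.span Qa (insert 1 (Set.range (comb b X)))).restrictScalars ℚ := by
      refine Submodule.span_le.2 ?_
      rintro _ ⟨l, rfl⟩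
      exact Submodule.subset_span (Or.inr ⟨l, rfl⟩)
    exact h5 (hx i)
  refine h3.affine (fun i s => if i = s then 1 else 0)
    (fun l => (c l : ℂ) * (2 * Real.pi * Complex.I)) ?_ ?_ ?_
  · intro l
    have h4 := (Aff Qa Θ).smul_mem ((c l : ℚ) : Qa) hπ
    rw [Algebra.smul_def, map_ratCast] at h4
    exact h4
  · intro l
    rw [htx l]
    congr 1
    rw [Finset.sum_eq_single l]
    · rw [if_pos rfl, map_one, one_mul]
    · intro b _ hb
      rw [if_neg (Ne.symm hb), map_zero, zero_mul]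
    · intro h; exact absurd (Finset.mem_univ _) h
  · intro y
    refine ⟨y, fun l => ?_⟩
    rw [Finset.sum_eq_single l]
    · rw [if_pos rfl, map_one, one_mul]
    · intro b _ hb
      rw [if_neg (Ne.symm hb), map_zero, zero_mul]
    · intro h; exact absurd (Finset.mem_univ _) h

/-- **Almost all tuples of logarithms over arbitrary constants.** -/
theorem tor_ab (P : Type) [Fintype P] (s R D e : ℕ) (hsR : s ≤ R) (he1 : 1 ≤ e) (he : e ≤ s * R)
    (hnum : Cond D s R (Fintype.card P) e)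
    (Θ : P → ℂ) (hπ : (2 * Real.pi * Complex.I : ℂ) ∈ Aff Qa Θ)
    (b : Fin R → ℂ) (hb : ∀ j, IsAlgebraic ℚ (Complex.exp (b j))) (hli : LinearIndependent ℚ b) :
    AR e (fun X : Fin s → Fin R → ℚ => ∀ (r : ℕ) (t : Fin r → ℂ),
      (∀ l, t l ∈ Submodule.span ℚ (Set.range (comb b X)) ⊔
        Submodule.span ℚ {(2 * Real.pi * Complex.I : ℂ)}) →
      (∀ c : Fin r → ℚ, ∑ l, (c l : ℂ) * t l ∈
        Submodule.span ℚ {(2 * Real.pi * Complex.I : ℂ)} → c = 0) →
      OTR Qa D Θ t) := by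
  classical
  set e' : Fin (Fintype.card P) ≃ P := (Fintype.equivFin P).symm with he'
  have h1 : Set.range (Θ ∘ e') = Set.range Θ := e'.surjective.range_comp Θ
  obtain ⟨⟨Ψ, hΨ, h3⟩, κ, h4⟩ := tor_fin_ab (Fintype.card P) s R D e hsR he1 he
    hnum (Θ ∘ e') (by
      unfold Aff
      rw [h1]
      exact hπ) b hb hli
  have hmono : ∀ (r : ℕ) (t : Fin r → ℂ), OTR Qa D (Θ ∘ e') t → OTR Qa D Θ t := by
    intro r t h
    have h7 := OTR.reindex e'.symm h
    have h8 : (Θ ∘ e') ∘ e'.symm = Θ := by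
      funext p
      simp
    rwa [h8] at h7
  refine ⟨⟨Ψ, hΨ, fun X hX r t ht hti => hmono r t (h3 X hX r t ht hti)⟩, κ, fun H hH =>
    le_trans ?_ (h4 H hH)⟩
  refine Set.ncard_le_ncard ?_ ((box_finite s R H).subset fun X hX => hX.1)
  rintro X ⟨h5, h6⟩
  exact ⟨h5, fun h9 => h6 fun r t ht hti => hmono r t (h9 r t ht hti)⟩

/-- the condition for quadratic relations -/
theorem cond_two {s R v e : ℕ} (h : 3 * s + v ^ 2 + 5 * v + 2 * e ≤ 2 * R) : Cond 2 s R v e := by
  intro m h1 h2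
  refine ⟨m, le_rfl, ?_⟩
  have h3 : 2 * (v + m + 2).choose 2 = (v + m + 2) * (v + m + 1) := by
    have h4 := Pool.Agent.Helper71.QR.choose_two' (v + m)
    rwa [add_comm 2 (v + m), Nat.choose_symm_add] at h4
  generalize (v + m + 2).choose 2 = Y at h3
  obtain ⟨g, rfl⟩ : ∃ g, s = m + g := ⟨s - m, by omega⟩
  have hv : 0 ≤ v ^ 2 := Nat.zero_le _
  obtain ⟨f, rfl⟩ : ∃ f, R = m + g + f := ⟨R - (m + g), by omega⟩
  have e1 : m + g - m = g := by omega
  have e2 : m + g + f + 2 - m = g + f + 2 := by omega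
  rw [e1, e2]
  obtain ⟨m', rfl⟩ : ∃ m', m = m' + 1 := ⟨m - 1, by omega⟩
  have h5 : m' + 1 + v ^ 2 + 5 * v + 2 * e ≤ 2 * f := by
    have : 3 * (m' + 1 + g) = 2 * (m' + 1 + g) + (m' + 1 + g) := by ring
    omega
  have h6 : (m' + 1) * (m' + 1 + v ^ 2 + 5 * v + 2 * e) ≤ (m' + 1) * (2 * f) :=
    Nat.mul_le_mul_left _ h5
  nlinarith [Nat.zero_le (m' * v ^ 2), Nat.zero_le (m' * v), Nat.zero_le (m' * e),
    Nat.zero_le m']

end Pool.Agent.Helper71.TG
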