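import Mathlib
import Pool.Agent.Helper71.TF.Ind
import Pool.Agent.Helper71.TG.Ab

/-!
# No new numbers, from relations over constants
-/

set_option autoImplicit false

namespace Pool.Agent.Helper71.TG

open Finset Module MvPolynomial
open Pool.Agent.Helper71.ET
open Pool.Agent.Helper71.TF
open Pool.Agent.W245.EB (totalDegree_bind_le)

variable {k E : Type} [Field k] [Field E] [Algebra k E]

/-- **Values of quotients.** -/
theorem no_new2 [Infinite k] {q n : ℕ} {ξ : Fin q → E} {z : E} {D D' : ℕ}
    (hDD : D' < D)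
    {y y₀ : Fin n → E} (hy : ∀ i, y i - y₀ i ∈ Aff k ξ)
    (hno : ∀ m ≤ n, ∀ u : Fin m → E, (∀ j, ∃ i, u j = y₀ i) →
      LinearIndependent k (Fin.cons 1 u : Fin (m + 1) → E) →
      OTR k D (Fin.cons z ξ : Fin (q + 1) → E) u) (A B : MvPolynomial (Fin q ⊕ Fin n) k)
    (hA : A.totalDegree ≤ D) (hB : B.totalDegree ≤ D') (hB0 : aeval (Sum.elim ξ y) B ≠ 0)
    (h : z * aeval (Sum.elim ξ y) B = aeval (Sum.elim ξ y) A) :
    ∃ g : Fin n → MvPolynomial (Fin q) k, (∀ i, (g i).totalDegree ≤ 1) ∧
      aeval ξ (bind₁ (Sum.elim X g) B) ≠ 0 ∧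
      z * aeval ξ (bind₁ (Sum.elim X g) B) = aeval ξ (bind₁ (Sum.elim X g) A) := by
  classical
  obtain ⟨m, hm, u, a, M, hli, huy, hrep⟩ := exists_li (k := k) y₀
  choose g hg1 hg2 using fun i => Aff.poly (hy i)
  let G : Fin q ⊕ Fin n → MvPolynomial (Fin q ⊕ Fin m) k := Sum.elim (fun p => X (Sum.inl p))
    (fun i => rename Sum.inl (g i) + MvPolynomial.C (a i) +
      ∑ l, MvPolynomial.C (M i l) * X (Sum.inr l))
  have hG1 : ∀ p, (G p).totalDegree ≤ 1 := by
    rintro (p | i)
    · simp only [G, Sum.elim_inl]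
      rw [totalDegree_X]
    · simp only [G, Sum.elim_inr]
      refine (totalDegree_add _ _).trans (max_le ((totalDegree_add _ _).trans (max_le
        ((totalDegree_rename_le _ _).trans (hg1 i)) ?_)) ?_)
      · rw [totalDegree_C]
        exact Nat.zero_le _
      · refine totalDegree_finsetSum_le fun s _ => ?_
        refine (totalDegree_mul _ _).trans ?_
        rw [totalDegree_C, totalDegree_X]
  have hGe : ∀ U : Fin m → E, (fun p => aeval (Sum.elim ξ U) (G p)) =
      Sum.elim ξ (fun i => (y i - y₀ i) + algebraMap k E (a i) + ∑ l, algebraMap k E (M i l) * U l) := by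
    intro U
    funext p
    rcases p with p | i
    · simp only [G, Sum.elim_inl, aeval_X]
    · simp only [G, Sum.elim_inr, map_add, map_sum, map_mul, aeval_X, aeval_C, aeval_rename]
      rw [← hg2 i]
      rfl
  have hGu : (fun p => aeval (Sum.elim ξ u) (G p)) = Sum.elim ξ y := by
    rw [hGe]
    funext p
    rcases p with p | i
    · rfl
    · simp only [Sum.elim_inr]
      rw [add_assoc, ← hrep i, sub_add_cancel]
  -- the relation over the constants
  let ι : Fin q ⊕ Fin m → Fin (q + 1) ⊕ Fin m := Sum.map Fin.succ id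
  have hι : ∀ (U : Fin m → E) (Q : MvPolynomial (Fin q ⊕ Fin m) k),
      aeval (Sum.elim (Fin.cons z ξ : Fin (q + 1) → E) U) (rename ι Q) = aeval (Sum.elim ξ U) Q := by
    intro U Q
    rw [aeval_rename]
    congr 2
    funext p
    rcases p with p | p
    · simp [ι]
    · simp [ι]
  have hval : ∀ U : Fin m → E, aeval (Sum.elim (Fin.cons z ξ : Fin (q + 1) → E) U)
      (X (Sum.inl 0) * rename ι (bind₁ G B) - rename ι (bind₁ G A)) =
        z * aeval (Sum.elim ξ U) (bind₁ G B) - aeval (Sum.elim ξ U) (bind₁ G A) := by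
    intro U
    rw [map_sub, map_mul, aeval_X, hι, hι]
    simp
  have hdeg : (X (Sum.inl 0) * rename ι (bind₁ G B) - rename ι (bind₁ G A) :
      MvPolynomial (Fin (q + 1) ⊕ Fin m) k).totalDegree ≤ D := by
    refine (totalDegree_sub _ _).trans (max_le ?_ ?_)
    · refine (totalDegree_mul _ _).trans ?_
      rw [totalDegree_X]
      have h1 : (rename ι (bind₁ G B)).totalDegree ≤ D' :=
        (totalDegree_rename_le _ _).trans ((totalDegree_bind_le G hG1 B).trans hB)
      omega
    · exact (totalDegree_rename_le _ _).trans ((totalDegree_bind_le G hG1 A).trans hA)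
  have hzero := hno m hm u huy hli _ hdeg (by
    rw [hval, aeval_bind, aeval_bind, hGu, h, sub_self])
  have hall : ∀ U : Fin m → E, z * aeval (Sum.elim ξ U) (bind₁ G B) =
      aeval (Sum.elim ξ U) (bind₁ G A) := by
    intro U
    have h1 := hzero U
    rw [hval] at h1
    exact sub_eq_zero.1 h1
  obtain ⟨PB, hPB1, hPB2, hPB3⟩ := spec (k := k) ξ (D := B.totalDegree) (bind₁ G B)
    (totalDegree_bind_le G hG1 B)
  have hPB0 : PB ≠ 0 := by
    rintro rfl
    apply hB0
    rw [← hGu, ← aeval_bind, ← hPB3, map_zero]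
  obtain ⟨c, hc⟩ : ∃ c : Fin m → k, eval (fun l => algebraMap k E (c l)) PB ≠ 0 := by
    by_contra hcon
    push Not at hcon
    apply hPB0
    refine MvPolynomial.funext_set (fun _ : Fin m => Set.range (algebraMap k E))
      (fun _ => Set.infinite_range_of_injective (algebraMap k E).injective) fun Z hZ => ?_
    choose c hc using fun t => hZ t (Set.mem_univ t)
    have h3 : Z = fun t => algebraMap k E (c t) := funext fun t => (hc t).symm
    rw [map_zero, h3]
    exact hcon c
  let g' : Fin n → MvPolynomial (Fin q) k := fun i => g i + MvPolynomial.C (a i) +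
    ∑ l, MvPolynomial.C (M i l) * MvPolynomial.C (c l)
  have hfin : ∀ Q : MvPolynomial (Fin q ⊕ Fin n) k, aeval ξ (bind₁ (Sum.elim X g') Q) =
      aeval (Sum.elim ξ (fun l => algebraMap k E (c l))) (bind₁ G Q) := by
    intro Q
    rw [aeval_bind, aeval_bind, hGe]
    congr 2
    funext p
    rcases p with p | i
    · simp only [Sum.elim_inl, aeval_X]
    · simp only [Sum.elim_inr, g', map_add, map_sum, map_mul, aeval_C]
      rw [← hg2 i]
  refine ⟨g', fun i => ?_, ?_, ?_⟩
  · refine (totalDegree_add _ _).trans (max_le ((totalDegree_add _ _).trans (max_le (hg1 i) ?_)) ?_)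
    · rw [totalDegree_C]
      exact Nat.zero_le _
    · refine totalDegree_finsetSum_le fun s _ => ?_
      refine (totalDegree_mul _ _).trans ?_
      rw [totalDegree_C, totalDegree_C]
      exact Nat.zero_le _
  · rw [hfin, ← hPB3]
    exact hc
  · rw [hfin, hfin]
    exact hall _

end Pool.Agent.Helper71.TG
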